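import Pool.Agent.Helper95.CFUpper

namespace Pool.Agent.Results.MP_717b2e_co.Diameter

open Pool.Agent.Helper95.CF

/-- For every odd `n ≥ 3` the graph of centered flips on the non-crossing perfect matchings of
`2n` points in convex position has diameter exactly `3n - 7`. -/
theorem result (n : ℕ) (hodd : Odd n) (hn : 3 ≤ n) :
    (H n).ediam = ((3 * n - 7 : ℕ) : ℕ∞) := by
  have hn' : n % 2 = 1 := Nat.odd_iff.1 hodd
  have hlo : ∀ w : (H n).Walk (star0 n) (star1 n (by omega)), 3 * n - 7 ≤ w.length :=
    fun w => lower (by omega) w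
  apply le_antisymm
  · rw [SimpleGraph.ediam_le_iff]
    intro M N
    obtain ⟨w, hw⟩ := upper hn' hn M N
    refine le_trans (SimpleGraph.edist_le w) ?_
    exact_mod_cast hw
  · refine le_trans ?_ (SimpleGraph.edist_le_ediam (G := H n) (u := star0 n)
      (v := star1 n (by omega)))
    rw [SimpleGraph.edist]
    exact le_iInf fun w => by exact_mod_cast hlo w

end Pool.Agent.Results.MP_717b2e_co.Diameter
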